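import Pool.Agent.Y582.CG.Pos
import Pool.Agent.W631.CG.Fn

/-!
# Martin's axiom for `κ` dense sets implies that `κ` is less than the continuum
-/

set_option autoImplicit false

namespace Pool.Agent.Y582.CG

open Function Set Cardinal Pool.Agent.W684.FM H38Q Pool.Agent.W631.CG

theorem MASC.mono {κ lam : Cardinal.{0}} (h : MASC κ) (hl : lam ≤ κ) : MASC lam :=
  fun P _ _ hP 𝒟 h𝒟 hd => h P hP 𝒟 (h𝒟.trans hl) hd

/-- Adding a real which differs from `κ` given ones. -/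
theorem lt_continuum {κ : Cardinal.{0}} (hκ : ℵ₀ ≤ κ) (h : MASC κ) : κ < 𝔠 := by
  classical
  by_contra hcon
  rw [not_lt] at hcon
  have hne : Nonempty (Fn ℕ Bool) := ⟨⟨∅, fun _ => false⟩⟩
  obtain ⟨e, he⟩ := exists_injective_nat (Finset ℕ × Finset ℕ)
  have hs : SigmaCentered (Fn ℕ Bool) := by
    refine ⟨fun p => e (p.dom, p.dom.filter fun i => p.val i = true), fun F hF hc => ?_⟩
    obtain ⟨p0, hp0⟩ := hF
    refine ⟨p0, fun p hp => ?_⟩
    have h1 := he (hc p hp p0 hp0)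
    rw [Prod.mk.injEq] at h1
    refine ⟨h1.1.le, fun i hi => ?_⟩
    have h2 : i ∈ p.dom.filter (fun i => p.val i = true) ↔
        i ∈ p0.dom.filter (fun i => p0.val i = true) := by rw [h1.2]
    rw [Finset.mem_filter, Finset.mem_filter] at h2
    have h3 : i ∈ p0.dom := h1.1 ▸ hi
    simp only [hi, h3, true_and] at h2
    exact (Bool.eq_iff_iff.2 h2).symm
  let A : ℕ → Set (Fn ℕ Bool) := fun n => {p | n ∈ p.dom}
  let B : (ℕ → Bool) → Set (Fn ℕ Bool) := fun x => {p | ∃ n ∈ p.dom, p.val n ≠ x n}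
  have hcard : #((Set.range A) ∪ (Set.range B) : Set (Set (Fn ℕ Bool))) ≤ κ := by
    refine (Cardinal.mk_union_le _ _).trans ?_
    have h1 : #(Set.range A) ≤ κ := by
      refine Cardinal.mk_range_le.trans ?_
      rw [Cardinal.mk_nat]
      exact hκ
    have h2 : #(Set.range B) ≤ κ := by
      refine Cardinal.mk_range_le.trans ?_
      have h3 : #(ℕ → Bool) = 𝔠 := by simp
      rw [h3]
      exact hcon
    refine (add_le_add h1 h2).trans ?_
    rw [Cardinal.add_eq_self hκ]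
  obtain ⟨G, _, _, hdir, hG⟩ := h (Fn ℕ Bool) hs _ hcard (by
    rintro _ (⟨n, rfl⟩ | ⟨x, rfl⟩) p
    · exact ⟨⟨insert n p.dom, p.val⟩, Finset.mem_insert_self _ _,
        Finset.subset_insert _ _, fun i _ => rfl⟩
    · obtain ⟨n, hn⟩ : ∃ n, n ∉ p.dom := Infinite.exists_notMem_finset p.dom
      refine ⟨⟨insert n p.dom, fun i => if i = n then !(x n) else p.val i⟩,
        ⟨n, Finset.mem_insert_self _ _, by simp⟩, Finset.subset_insert _ _, fun i hi => ?_⟩
      have : i ≠ n := fun h => hn (h ▸ hi)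
      simp [this])
  choose q hq using fun n => hG (A n) (Or.inl ⟨n, rfl⟩)
  let x : ℕ → Bool := fun n => (q n).val n
  obtain ⟨p, hp, n, hn, hpn⟩ := hG (B x) (Or.inr ⟨x, rfl⟩)
  obtain ⟨r, _, hrp, hrq⟩ := hdir p hp (q n) (hq n).1
  exact hpn ((hrp.2 n hn).symm.trans (hrq.2 n (hq n).2))

/-- The positive side. -/
theorem homeo_all {κ : Cardinal.{0}} (hMA : MartinAxiomCard κ) (ι : Type) [Infinite ι]
    (hι : #ι ≤ κ) {m n : ℕ} (hm : 2 ≤ m) (hn : 2 ≤ n) :
    Nonempty (@Homeomorph (ι →₀ ZMod m) (ι →₀ ZMod n) (frakG _) (frakG _)) ∧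
      Nonempty (@Homeomorph (ι →₀ ZMod m) (ι →₀ ZMod n) (rho _) (rho _)) := by
  have h1 : MASC #ι := (masc hMA).mono hι
  have h2 : ℵ₀ ≤ #ι := Cardinal.aleph0_le_mk ι
  have h3 : #ι ≤ 𝔠 := (lt_continuum h2 h1).le
  exact ⟨homeo_frakG h2 h3 h1 rfl hm hn, homeo_rhoG h2 h3 h1 rfl hm hn⟩

end Pool.Agent.Y582.CG
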