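import Pool.Agent.W631.CG.Neg
import Pool.Agent.W631.CG.Amb

/-!
# The spaces are not homeomorphic after adding Cohen reals, for every uncountable number of copies

This is the argument of `Pool.Agent.W631.CG.Core`, `Core2` and `Neg` with the index set `ω₁` of the
direct sums replaced by an arbitrary uncountable set `ι`. The pressing down argument is replaced by
one along a continuous chain of countable subsets of `ι` which is built together with the
conditions.
-/

set_option autoImplicit false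

namespace Pool.Agent.Y582.CG

open Cardinal Set Pool.Agent.Helper669.Forcing Pool.Agent.W684.FM Pool.Agent.W631.CG

/-- The direct sum of `ι` copies of `ℤ(2)`. -/
abbrev GX (ι : Type) : Type := ι →₀ ZMod 2

/-- The direct sum of `ι` copies of `ℤ(3)`. -/
abbrev HX (ι : Type) : Type := ι →₀ ZMod 3

/-- `(G, ϱ_G)` and `(H, ϱ_H)` are homeomorphic, for `ι` copies. -/
def RhoHomeoX (ι : Type) : Prop := ∃ F : GX ι → HX ι → Prop, IsHomeoR RhoNhd RhoNhd F

/-- `(G, 𝔊_G)` and `(H, 𝔊_H)` are homeomorphic, for `ι` copies. -/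
def FrakHomeoX (ι : Type) : Prop := ∃ F : GX ι → HX ι → Prop, IsHomeoR FrakNhd FrakNhd F

/-- Forcing version of `RhoHomeoX`. -/
def RhoHomeoNX (ι P : Type) [Preorder P] : Set P :=
  fex fun F : GX ι → HX ι → Set P => IsHomeoN RhoNhdN RhoNhdN F

/-- Forcing version of `FrakHomeoX`. -/
def FrakHomeoNX (ι P : Type) [Preorder P] : Set P :=
  fex fun F : GX ι → HX ι → Set P => IsHomeoN FrakNhdN FrakNhdN F

theorem rhoHomeoX_iff (ι : Type) : RhoHomeoX ι ↔
    Nonempty (@Homeomorph (GX ι) (HX ι) (H38Q.rho (GX ι)) (H38Q.rho (HX ι))) :=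
  homeo_iff mem_nhds_rho mem_nhds_rho

theorem frakHomeoX_iff (ι : Type) : FrakHomeoX ι ↔
    Nonempty (@Homeomorph (GX ι) (HX ι) (H38Q.frakG (GX ι)) (H38Q.frakG (HX ι))) :=
  homeo_iff mem_nhds_frak mem_nhds_frak

variable {ι : Type}

theorem GX.sub_eq (x y : GX ι) : x - y = x + y := by
  ext i
  simp [CharTwo.sub_eq_add]

theorem mk_GX [Infinite ι] : #(GX ι) ≤ #ι := by
  rw [Cardinal.mk_finsupp_of_infinite]
  exact max_le le_rfl ((Cardinal.mk_le_aleph0).trans (Cardinal.aleph0_le_mk ι))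

theorem mk_HX [Infinite ι] : #(HX ι) ≤ #ι := by
  rw [Cardinal.mk_finsupp_of_infinite]
  exact max_le le_rfl ((Cardinal.mk_le_aleph0).trans (Cardinal.aleph0_le_mk ι))

/-- A common support for few names. -/
theorem exists_support_familyX {J K : Type} [Countable K] {κ : Cardinal.{0}} (hκ : ℵ₀ ≤ κ)
    {X : Type} (hX : #X ≤ κ) (N : X → Set (Fn J K)) :
    ∃ A : Set J, #A ≤ κ ∧ ∀ x, ∀ q ∈ meets (N x), q.res A ∈ meets (N x) := by
  choose A hA1 hA2 using fun x => Fn.exists_support (N x)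
  refine ⟨⋃ x, A x, ?_, fun x q hq => ?_⟩
  · refine (Cardinal.mk_iUnion_le_sum_mk).trans ?_
    refine (Cardinal.sum_le_sum _ (fun _ => ℵ₀) (fun x => ?_)).trans ?_
    · exact Cardinal.le_aleph0_iff_set_countable.2 (hA1 x)
    · rw [Cardinal.sum_const']
      refine (mul_le_mul_left hX _).trans ?_
      rw [Cardinal.mul_aleph0_eq hκ]
  · refine down_meets _ _ (hA2 x q hq) _ ⟨fun i hi => ?_, fun i hi => rfl⟩
    rw [Fn.mem_res_dom] at hi ⊢
    exact ⟨hi.1, mem_iUnion.2 ⟨x, hi.2⟩⟩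

/-- the homomorphism given by its values on the generators -/
noncomputable def ev (v : ι → K3) (h : HX ι) : K3 := h.sum fun α z => z • v α

theorem ev_congr {v w : ι → K3} {h : HX ι} (hvw : ∀ α ∈ h.support, v α = w α) :
    ev v h = ev w h :=
  Finsupp.sum_congr fun α hα => by rw [hvw α hα]

theorem ev_add (v w : ι → K3) (h : HX ι) : ev (fun α => v α + w α) h = ev v h + ev w h := by
  simp only [ev, Finsupp.sum, smul_add, Finset.sum_add_distrib]

theorem ev_zero (h : HX ι) : ev (fun _ => 0) h = 0 := by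
  simp [ev, Finsupp.sum]

theorem ev_sum {κ : Type} (s : Finset κ) (v : κ → ι → K3) (h : HX ι) :
    ev (fun α => ∑ k ∈ s, v k α) h = ∑ k ∈ s, ev (v k) h := by
  classical
  induction s using Finset.induction_on with
  | empty => simp [ev_zero]
  | insert a s ha ih =>
    simp only [Finset.sum_insert ha]
    rw [ev_add, ih]

theorem ev_apply (v : ι → K3) (h : HX ι) (m : ℕ) :
    ev v h m = ∑ α ∈ h.support, h α * v α m := by
  simp [ev, Finsupp.sum, Finsupp.finsetSum_apply]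

theorem ev_sub (v : ι → K3) (h h' : HX ι) : ev v (h - h') = ev v h - ev v h' := by
  unfold ev
  exact Finsupp.sum_sub_index fun α z z' => sub_smul z z' (v α)

/-- the name of the generic homomorphism with values `k` -/
def Sn {J : Type} (j : ι → J) (h : HX ι) (k : K3) : Set (Fn J K3) :=
  {p | (∀ α ∈ h.support, j α ∈ p.dom) ∧ ev (fun α => p.val (j α)) h = k}

theorem down_Sn {J : Type} (j : ι → J) (h : HX ι) (k : K3) : Down (Sn j h k) := by
  rintro p ⟨h1, h2⟩ q hq
  refine ⟨fun α hα => hq.1 (h1 α hα), ?_⟩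
  rw [← h2]
  exact ev_congr fun α hα => hq.2 _ (h1 α hα)

theorem Sn_unique {J : Type} {j : ι → J} {h : HX ι} {k k' : K3} {p s : Fn J K3}
    (hp : p ∈ Sn j h k) (hs : s ∈ Sn j h k') (hsp : s ≤ p) : k = k' := by
  rw [← hs.2]
  exact (down_Sn j h k p hp s hsp).2.symm

/-- the name of the kernel of the generic homomorphism -/
abbrev Vn {J : Type} (j : ι → J) (h : HX ι) : Set (Fn J K3) := Sn j h 0

theorem mem_of_meets_Sn {J : Type} {j : ι → J} (hj : Function.Injective j) {h : HX ι} {k : K3}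
    {q : Fn J K3} (hq : q ∈ meets (Sn j h k)) : q ∈ Sn j h k := by
  classical
  have key : ∀ r ≤ q, (∀ α ∈ h.support, j α ∈ r.dom) → ev (fun α => r.val (j α)) h = k := by
    intro r hr hdom
    obtain ⟨r', hr', hr'2⟩ := exists_of_meets (down_Sn j h k) (down_meets _ _ hq r hr)
    rw [← hr'2.2]
    exact ev_congr fun α hα => (hr'.2 _ (hdom α hα)).symm
  have hdom : ∀ α ∈ h.support, j α ∈ q.dom := by
    intro α0 hα0
    by_contra hcon
    let D : Finset J := q.dom ∪ h.support.image j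
    let v : J → K3 := fun i => if i ∈ q.dom then q.val i else 0
    let w : J → K3 := fun i => if i = j α0 then Finsupp.single 0 1 else 0
    have hD : ∀ α ∈ h.support, j α ∈ D := fun α hα =>
      Finset.mem_union_right _ (Finset.mem_image_of_mem _ hα)
    have h1 := key ⟨D, v⟩ ⟨Finset.subset_union_left, fun i hi => by simp [v, hi]⟩ hD
    have h2 := key ⟨D, fun i => v i + w i⟩ ⟨Finset.subset_union_left, fun i hi => by
      have : i ≠ j α0 := fun h => hcon (h ▸ hi)
      simp [v, w, hi, this]⟩ hD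
    have h3 : ev (fun α => w (j α)) h = 0 := by
      have h4 := ev_add (fun α => v (j α)) (fun α => w (j α)) h
      simp only at h1 h2
      rw [h2, h1] at h4
      simpa using h4.symm
    have h5 := ev_apply (fun α => w (j α)) h 0
    rw [h3, Finset.sum_eq_single α0] at h5
    · simp only [w, if_true, Finsupp.single_eq_same, mul_one, Finsupp.coe_zero,
        Pi.zero_apply] at h5
      exact (Finsupp.mem_support_iff.1 hα0) h5.symm
    · intro α _ hne
      have : j α ≠ j α0 := fun h => hne (hj h)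
      simp [w, this]
    · intro h6
      exact absurd hα0 h6
  exact ⟨hdom, key q le_rfl hdom⟩

section

variable {J : Type} {j : ι → J} (hj : Function.Injective j) {g0 : Om1 → ι} {q0 : Fn J K3}
  {c : GX ι → ℕ → Set (Fn J K3)} {F : GX ι → HX ι → Set (Fn J K3)} {y0 : HX ι} {I0 : Set J}
  (hI0 : ∀ α, j α ∉ I0) (hF : ∀ x y, ∀ q ∈ meets (F x y), q.res I0 ∈ meets (F x y))
  (hc : ∀ a n, Down (c a n))
  (hmain : ∀ a b a' b' n n' y, ∀ r ≤ q0, r ∈ c a n → r ∈ c b n → r ∈ c a' n' → r ∈ c b' n' →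
    r ∈ meets (F ((a - b) + (a' - b')) y) → r ∈ meets (Vn j (y - y0)))
  {T : Set Om1} {D : Om1 → Finset J} {u u' : Om1 → J → K3} {ν : Om1 → J → ℕ} {S : Om1 → Set J}
  (hu : ∀ β ∈ T, (⟨D β, u β⟩ : Fn J K3) ≤ q0)
  (hSj : ∀ β, ∀ i ∈ S β, ∃ α, j α = i)
  {n0 n0' : ℕ}
  (hn : ∀ β ∈ T, (⟨D β, u β⟩ : Fn J K3) ∈ c (Finsupp.single (g0 β) 1) n0)
  (hn' : ∀ β ∈ T, (⟨D β, u' β⟩ : Fn J K3) ∈ c (Finsupp.single (g0 β) 1) n0')
  (h1 : ∀ β ∈ T, ∀ i ∈ D β, i ∉ S β → u' β i = u β i)
  (h2 : ∀ β ∈ T, ∀ i ∈ D β, i ∈ S β → u' β i = u β i + Finsupp.single (ν β i) 1)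
  (hν : ∀ β ∈ T, InjOn (ν β) (D β : Set J))
  (hdis : ∀ β ∈ T, ∀ β' ∈ T, β ≠ β' → ∀ i ∈ D β, i ∈ D β' → i ∉ S β ∧ u β i = u β' i)
  {T0 : Set ι} (hT0 : ∀ β ∈ T, ∀ α, j α ∈ D β → α ∉ T0 → j α ∈ S β)

include hj hI0 hF hc hmain hu hSj hn hn' h1 h2 hν hdis hT0 in
/-- the values at sums of four generators are congruent to `y0` outside of `T0` -/
theorem claim (β : Fin 4 → Om1) (hβ : ∀ k, β k ∈ T) (hβi : Function.Injective β) {t : Fn J K3}
    (ht : ∀ k, t ≤ ⟨D (β k), u (β k)⟩) {y : HX ι}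
    (hty : t ∈ meets (F (∑ k, Finsupp.single (g0 (β k)) 1) y)) :
    ∀ α ∈ (y - y0).support, α ∈ T0 := by
  classical
  set h := y - y0 with hh
  let δ : Fin 4 → J → K3 := fun k i =>
    if i ∈ D (β k) ∧ i ∈ S (β k) then Finsupp.single (ν (β k) i) 1 else 0
  let w : (Fin 4 → Bool) → J → K3 := fun κ i => t.val i + ∑ k, if κ k then δ k i else 0
  let dm : Finset J := (t.res I0).dom ∪ Finset.univ.biUnion fun k => D (β k)
  have e1 : ∀ κ, (⟨dm, w κ⟩ : Fn J K3) ≤ t.res I0 := by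
    intro κ
    refine ⟨Finset.subset_union_left, fun i hi => ?_⟩
    have hi0 := (Fn.mem_res_dom.1 hi).2
    have : ∀ k, δ k i = 0 := by
      intro k
      simp only [δ]
      rw [if_neg]
      rintro ⟨_, hS⟩
      obtain ⟨α, rfl⟩ := hSj _ _ hS
      exact hI0 α hi0
    simp [w, this, Fn.res_val]
  have e2 : ∀ κ k, (⟨dm, w κ⟩ : Fn J K3) ≤ ⟨D (β k), if κ k then u' (β k) else u (β k)⟩ := by
    intro κ k
    refine ⟨fun i hi => Finset.mem_union_right _ (Finset.mem_biUnion.2 ⟨k, Finset.mem_univ _, hi⟩),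
      fun i hi => ?_⟩
    simp only at hi ⊢
    have h3 : ∀ l, l ≠ k → δ l i = 0 := by
      intro l hl
      simp only [δ]
      rw [if_neg]
      rintro ⟨h4, h5⟩
      exact (hdis _ (hβ l) _ (hβ k) (fun h => hl (hβi h)) i h4 hi).1 h5
    have h4 : (∑ l, if κ l then δ l i else 0) = if κ k then δ k i else 0 := by
      apply Finset.sum_eq_single k
      · intro l _ hl
        simp [h3 l hl]
      · intro h5
        exact absurd (Finset.mem_univ k) h5
    have h5 : t.val i = u (β k) i := (ht k).2 i hi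
    simp only [w, h4, h5]
    by_cases hκ : κ k
    · simp only [hκ, if_true, δ, hi, true_and]
      by_cases hS : i ∈ S (β k)
      · simp only [hS, if_true]
        exact (h2 _ (hβ k) i hi hS).symm
      · simp only [hS, if_false, add_zero]
        exact (h1 _ (hβ k) i hi hS).symm
    · simp [hκ]
  have e3 : ∀ κ k, (⟨dm, w κ⟩ : Fn J K3) ∈ c (Finsupp.single (g0 (β k)) 1)
      (if κ k then n0' else n0) := by
    intro κ k
    have h3 := e2 κ k
    by_cases hκ : κ k
    · simp only [hκ, if_true] at h3 ⊢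
      exact hc _ _ _ (hn' _ (hβ k)) _ h3
    · simp only [hκ] at h3 ⊢
      exact hc _ _ _ (hn _ (hβ k)) _ h3
  have e4 : ∀ κ, (⟨dm, w κ⟩ : Fn J K3) ∈ meets (F (∑ k, Finsupp.single (g0 (β k)) 1) y) := fun κ =>
    down_meets _ _ (hF _ _ _ hty) _ (e1 κ)
  have e5 : ∀ κ, (⟨dm, w κ⟩ : Fn J K3) ≤ q0 := by
    intro κ
    have hdom : q0.dom ⊆ D (β 0) := (hu _ (hβ 0)).1
    -- the values on the domain of q0 do not change
    have h3 := e2 κ 0
    by_cases hκ : κ 0
    · refine ⟨hdom.trans h3.1, fun i hi => ?_⟩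
      have h4 := e2 κ 1
      have hi1 : i ∈ D (β 1) := (hu _ (hβ 1)).1 hi
      have hi0 : i ∈ D (β 0) := hdom hi
      have hne : β 0 ≠ β 1 := fun h => by
        have := hβi h
        exact absurd this (by decide)
      have h5 := (hdis _ (hβ 0) _ (hβ 1) hne i hi0 hi1).1
      have h6 := h3.2 i hi0
      simp only [hκ, if_true] at h6
      show w κ i = q0.val i
      rw [h6, h1 _ (hβ 0) i hi0 h5]
      exact (hu _ (hβ 0)).2 i hi
    · simp only [hκ] at h3
      exact h3.trans (hu _ (hβ 0))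
  have fin : ∀ (κ : Fin 4 → Bool) (a b a' b' : Fin 4), κ a = κ b → κ a' = κ b' →
      (∑ k, (Finsupp.single (g0 (β k)) 1 : GX ι)) = (Finsupp.single (g0 (β a)) 1 - Finsupp.single (g0 (β b)) 1) +
        (Finsupp.single (g0 (β a')) 1 - Finsupp.single (g0 (β b')) 1) →
      (⟨dm, w κ⟩ : Fn J K3) ∈ Sn j h 0 := by
    intro κ a b a' b' hab hab' hs
    apply mem_of_meets_Sn hj
    refine hmain _ _ _ _ _ _ y _ (e5 κ) (e3 κ a) ?_ (e3 κ a') ?_ (by rw [← hs]; exact e4 κ)
    · rw [hab]; exact e3 κ b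
    · rw [hab']; exact e3 κ b'
  -- evaluation
  have hev : ∀ κ, ev (fun α => w κ (j α)) h = ev (fun α => t.val (j α)) h +
      ∑ k, if κ k then ev (fun α => δ k (j α)) h else 0 := by
    intro κ
    simp only [w]
    rw [ev_add, ev_sum]
    congr 1
    apply Finset.sum_congr rfl
    intro k _
    by_cases hκ : κ k
    · simp [hκ]
    · simp [hκ, ev_zero]
  set d : Fin 4 → K3 := fun k => ev (fun α => δ k (j α)) h with hd
  set e0 := ev (fun α => t.val (j α)) h with he0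
  have s1 : (∑ k, (Finsupp.single (g0 (β k)) 1 : GX ι)) =
      (Finsupp.single (g0 (β 0)) 1 - Finsupp.single (g0 (β 1)) 1) +
        (Finsupp.single (g0 (β 2)) 1 - Finsupp.single (g0 (β 3)) 1) := by
    rw [Fin.sum_univ_four, GX.sub_eq, GX.sub_eq]
    abel
  have s2 : (∑ k, (Finsupp.single (g0 (β k)) 1 : GX ι)) =
      (Finsupp.single (g0 (β 0)) 1 - Finsupp.single (g0 (β 2)) 1) +
        (Finsupp.single (g0 (β 1)) 1 - Finsupp.single (g0 (β 3)) 1) := by
    rw [Fin.sum_univ_four, GX.sub_eq, GX.sub_eq]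
    abel
  have s3 : (∑ k, (Finsupp.single (g0 (β k)) 1 : GX ι)) =
      (Finsupp.single (g0 (β 1)) 1 - Finsupp.single (g0 (β 2)) 1) +
        (Finsupp.single (g0 (β 0)) 1 - Finsupp.single (g0 (β 3)) 1) := by
    rw [Fin.sum_univ_four, GX.sub_eq, GX.sub_eq]
    abel
  have r0 := fin ![false, false, false, false] 0 1 2 3 rfl rfl s1
  have r1 := fin ![true, true, false, false] 0 1 2 3 rfl rfl s1
  have r2 := fin ![true, false, true, false] 0 2 1 3 rfl rfl s2
  have r3 := fin ![false, true, true, false] 1 2 0 3 rfl rfl s3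
  have r4 := fin ![false, false, true, true] 0 1 2 3 rfl rfl s1
  have E0 := (hev ![false, false, false, false]).symm.trans r0.2
  have E1 := (hev ![true, true, false, false]).symm.trans r1.2
  have E2 := (hev ![true, false, true, false]).symm.trans r2.2
  have E3 := (hev ![false, true, true, false]).symm.trans r3.2
  have E4 := (hev ![false, false, true, true]).symm.trans r4.2
  simp only [Fin.sum_univ_four, Matrix.cons_val_zero, Matrix.cons_val_one, Matrix.cons_val,
    if_true, Bool.false_eq_true, if_false, add_zero, zero_add] at E0 E1 E2 E3 E4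
  have d0 : d 0 = 0 := by
    have := K3.three (d 0)
    have h5 : d 0 + d 1 = 0 := by simpa [E0] using E1
    have h6 : d 0 + d 2 = 0 := by simpa [E0] using E2
    have h7 : d 1 + d 2 = 0 := by simpa [E0] using E3
    calc d 0 = (d 0 + d 0 + d 0) - ((d 0 + d 1) + (d 0 + d 2) - (d 1 + d 2)) := by abel
      _ = 0 := by rw [this, h5, h6, h7]; simp
  have hd' : ∀ k, d k = 0 := by
    have h5 : d 0 + d 1 = 0 := by simpa [E0] using E1
    have h6 : d 0 + d 2 = 0 := by simpa [E0] using E2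
    have h8 : d 2 + d 3 = 0 := by simpa [E0] using E4
    have d1 : d 1 = 0 := by simpa [d0] using h5
    have d2 : d 2 = 0 := by simpa [d0] using h6
    have d3 : d 3 = 0 := by simpa [d2] using h8
    intro k
    fin_cases k
    · exact d0
    · exact d1
    · exact d2
    · exact d3
  -- conclusion
  intro α hα
  by_contra hαT
  have h3 := r0.1 α hα
  rcases Finset.mem_union.1 h3 with h4 | h4
  · exact hI0 α (Fn.mem_res_dom.1 h4).2
  · obtain ⟨k, _, hk⟩ := Finset.mem_biUnion.1 h4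
    have hS := hT0 _ (hβ k) α hk hαT
    have h5 := ev_apply (fun α => δ k (j α)) h (ν (β k) (j α))
    have h6 : ev (fun α => δ k (j α)) h = 0 := hd' k
    rw [h6, Finset.sum_eq_single α] at h5
    · simp only [δ, hk, hS, and_self, if_true, Finsupp.single_eq_same, mul_one,
        Finsupp.coe_zero, Pi.zero_apply] at h5
      exact (Finsupp.mem_support_iff.1 hα) h5.symm
    · intro α' _ hne
      simp only [δ]
      split_ifs with h7
      · rw [Finsupp.single_apply, if_neg, mul_zero]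
        intro h8
        exact hne (hj (hν _ (hβ k) h7.1 hk h8))
      · simp
    · intro h7
      exact absurd hα h7

end

theorem core [Infinite ι] {g0 : Om1 → ι} (hg0 : Function.Injective g0) {J : Type} (hJ : #ι < #J)
    (F : GX ι → HX ι → Set (Fn J K3)) :
    ∃ j : ι → J, Function.Injective j ∧ ∀ (q0 : Fn J K3) (c : GX ι → ℕ → Set (Fn J K3)) (y0 : HX ι),
      q0 ∈ IsFun F → q0 ∈ IsInj F → (∀ a n, Down (c a n)) →
      (∀ a, ∀ r ≤ q0, ∃ r' ≤ r, ∃ n, r' ∈ c a n) →
      (∀ a b a' b' n n' y, ∀ r ≤ q0, r ∈ c a n → r ∈ c b n → r ∈ c a' n' → r ∈ c b' n' →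
        r ∈ meets (F ((a - b) + (a' - b')) y) → r ∈ meets (Vn j (y - y0))) → False := by
  classical
  obtain ⟨I0, hI0, hF⟩ := exists_support_familyX (J := J) (K := K3)
    (X := GX ι × HX ι) (Cardinal.aleph0_le_mk ι) (by
    rw [Cardinal.mk_prod, Cardinal.lift_id, Cardinal.lift_id]
    refine (mul_le_mul' mk_GX mk_HX).trans ?_
    rw [Cardinal.mul_eq_self (Cardinal.aleph0_le_mk ι)]) (fun x => F x.1 x.2)
  have hJinf : Infinite J := Cardinal.infinite_iff.2 ((Cardinal.aleph0_le_mk ι).trans hJ.le)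
  have hcompl : #(I0ᶜ : Set J) = #J := Cardinal.mk_compl_of_infinite _ (hI0.trans_lt hJ)
  obtain ⟨e⟩ : Nonempty (ι ↪ (I0ᶜ : Set J)) := by
    have h1 : #ι ≤ #(I0ᶜ : Set J) := by
      rw [hcompl]
      exact hJ.le
    exact h1
  have hj : Function.Injective fun α => (e α).1 := fun α α' h => e.injective (Subtype.ext h)
  refine ⟨fun α => (e α).1, hj, ?_⟩
  set j : ι → J := fun α => (e α).1 with hjdef
  have hI0j : ∀ α, j α ∉ I0 := fun α => (e α).2
  intro q0 c y0 hfun hinj hc htot hmain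
  let SS : Set ι → Set J := fun N => {i | (∃ α, α ∉ N ∧ j α = i) ∧ i ∉ q0.dom}
  have hpair : ∀ (β : Om1) (N : Set ι), _ := fun β N => pair (S := SS N) (q0 := q0)
    (fun i hi hS => hS.2 hi) (c (Finsupp.single (g0 β) 1)) (hc _) (htot _)
  choose DD uu uu' νν nn nn' hu hu' hn hn' h1 h2 hν using hpair
  obtain ⟨N, hN⟩ : ∃ N : Om1 → Set ι, ∀ β, N β = {α | ∃ γ, γ < β ∧ j α ∈ DD γ (N γ)} := by
    refine ⟨(wellFounded_lt (α := Om1)).fix
      (fun β ih => {α | ∃ γ, ∃ h : γ < β, j α ∈ DD γ (ih γ h)}), fun β => ?_⟩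
    rw [WellFounded.fix_eq]
    ext α
    simp only [mem_ofPred_eq, exists_prop]
  let S : Om1 → Set J := fun β => SS (N β)
  let D : Om1 → Finset J := fun β => DD β (N β)
  let u : Om1 → J → K3 := fun β => uu β (N β)
  let u' : Om1 → J → K3 := fun β => uu' β (N β)
  let ν : Om1 → J → ℕ := fun β => νν β (N β)
  let n : Om1 → ℕ := fun β => nn β (N β)
  let n' : Om1 → ℕ := fun β => nn' β (N β)
  let A : Om1 → Finset ι := fun β => ((D β).preimage j hj.injOn).filter (· ∈ N β)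
  have hA : ∀ β α, α ∈ A β ↔ j α ∈ D β ∧ α ∈ N β := by
    intro β α
    simp [A]
  have hgam : ∀ α, ∃ γ : Om1, ∀ β, j α ∈ D β → j α ∈ D γ ∧ γ ≤ β := by
    intro α
    by_cases h : {γ : Om1 | j α ∈ D γ}.Nonempty
    · obtain ⟨γ, hγ, hmin⟩ := WellFounded.has_min (wellFounded_lt (α := Om1)) _ h
      exact ⟨γ, fun β hβ => ⟨hγ, not_lt.1 (hmin β hβ)⟩⟩
    · obtain ⟨x0, _⟩ := exists_bound' ∅ Set.countable_empty
      exact ⟨x0, fun β hβ => absurd ⟨β, hβ⟩ h⟩
  choose gam hgam using hgam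
  have hgamN : ∀ β, ∀ α ∈ N β, j α ∈ D (gam α) ∧ gam α < β := by
    intro β α hα
    rw [hN] at hα
    obtain ⟨γ, hγ, hαγ⟩ := hα
    exact ⟨(hgam α γ hαγ).1, (hgam α γ hαγ).2.trans_lt hγ⟩
  obtain ⟨A0', z0, hE'⟩ := press (fun β => (A β).image gam) (by
    intro β γ hγ
    obtain ⟨α, hα, rfl⟩ := Finset.mem_image.1 hγ
    exact (hgamN β α ((hA _ _).1 hα).2).2) (fun β => (n β, n' β))
  let F0 : Finset ι := A0'.biUnion fun γ => (D γ).preimage j hj.injOn
  obtain ⟨A0, hE⟩ : ∃ A0, ¬ {β | A β = A0 ∧ (n β, n' β) = z0}.Countable := by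
    by_contra hcon
    push Not at hcon
    apply hE'
    refine ((F0.powerset.countable_toSet).biUnion fun A0 _ => hcon A0).mono ?_
    rintro β ⟨hβ1, hβ2⟩
    refine mem_iUnion₂.2 ⟨A β, ?_, rfl, hβ2⟩
    rw [Finset.mem_coe, Finset.mem_powerset]
    intro α hα
    refine Finset.mem_biUnion.2 ⟨gam α, ?_, ?_⟩
    · rw [← hβ1]
      exact Finset.mem_image_of_mem _ hα
    · rw [Finset.mem_preimage]
      exact (hgamN β α ((hA _ _).1 hα).2).1
  obtain ⟨T, hTE, hTc, R, hR1, hR2, hR3⟩ := Fn.delta {β | A β = A0 ∧ (n β, n' β) = z0} hE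
    (fun β => (⟨D β, u β⟩ : Fn J K3))
  simp only at hR1 hR2 hR3
  have hRS : ∀ β ∈ T, ∀ i ∈ R, i ∉ S β := by
    rintro β hβ i hi ⟨⟨α, hα, rfl⟩, _⟩
    obtain ⟨β', hβ', hlt⟩ : ∃ β' ∈ T, β < β' := by
      by_contra hcon
      push Not at hcon
      exact hTc ((countable_Iic β).mono fun β' hβ' => hcon β' hβ')
    have h3 : α ∈ A β' := (hA _ _).2 ⟨hR1 β' hβ' hi, by
      rw [hN]
      exact ⟨β, hlt, hR1 β hβ hi⟩⟩
    rw [(hTE hβ').1, ← (hTE hβ).1] at h3
    exact hα ((hA _ _).1 h3).2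
  have hdis : ∀ β ∈ T, ∀ β' ∈ T, β ≠ β' → ∀ i ∈ D β, i ∈ D β' → i ∉ S β ∧ u β i = u β' i := by
    intro β hβ β' hβ' hne i hi hi'
    have hiR : i ∈ R := by
      rw [← hR2 β hβ β' hβ' hne]
      exact ⟨hi, hi'⟩
    exact ⟨hRS β hβ i hiR, hR3 β hβ β' hβ' i hiR⟩
  let T0 : Finset ι := A0 ∪ q0.dom.preimage j hj.injOn
  have hT0 : ∀ β ∈ T, ∀ α, j α ∈ D β → α ∉ (T0 : Set ι) → j α ∈ S β := by
    intro β hβ α hα hαT
    simp only [T0, Finset.coe_union, Finset.coe_preimage, mem_union, Finset.mem_coe,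
      mem_preimage, not_or] at hαT
    refine ⟨⟨α, ?_, rfl⟩, hαT.2⟩
    intro hlt
    apply hαT.1
    rw [← (hTE hβ).1, hA]
    exact ⟨hα, hlt⟩
  have key := claim (j := j) hj (g0 := g0) (q0 := q0) (c := c) (F := F) (y0 := y0) (I0 := I0) hI0j
    (fun x y => hF (x, y)) hc hmain (T := T) (D := D) (u := u) (u' := u') (ν := ν) (S := S)
    (fun β _ => hu β _) (fun β i hi => ⟨hi.1.choose, hi.1.choose_spec.2⟩) (n0 := z0.1) (n0' := z0.2)
    (fun β hβ => by
      have := congrArg Prod.fst (hTE hβ).2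
      simp only at this
      rw [← this]; exact hn β _)
    (fun β hβ => by
      have := congrArg Prod.snd (hTE hβ).2
      simp only at this
      rw [← this]; exact hn' β _)
    (fun β _ => h1 β _) (fun β _ => h2 β _) (fun β _ => hν β _) hdis (T0 := (T0 : Set ι)) hT0
  -- three points
  have step : ∀ X : Set Om1, X.Countable → ∃ β ∈ T, β ∉ X := by
    intro X hX
    by_contra hcon
    push Not at hcon
    exact hTc (hX.mono hcon)
  obtain ⟨b0, hb0, -⟩ := step ∅ countable_empty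
  obtain ⟨b1, hb1, hb1'⟩ := step {b0} (countable_singleton _)
  obtain ⟨b2, hb2, hb2'⟩ := step {b0, b1} (Set.toFinite _).countable
  have hne01 : b0 ≠ b1 := fun h => hb1' (by simp [h])
  have hne02 : b0 ≠ b2 := fun h => hb2' (by simp [h])
  have hne12 : b1 ≠ b2 := fun h => hb2' (by simp [h])
  let X : Type := {b : Om1 // b ∈ T ∧ b ∉ ({b0, b1, b2} : Set Om1)}
  have hX : ℵ₀ < #X := by
    rw [← not_le]
    intro hcon'
    have hcon : {b : Om1 | b ∈ T ∧ b ∉ ({b0, b1, b2} : Set Om1)}.Countable :=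
      Cardinal.le_aleph0_iff_set_countable.1 hcon'
    obtain ⟨b, hb, hb'⟩ := step ({b | b ∈ T ∧ b ∉ ({b0, b1, b2} : Set Om1)} ∪ {b0, b1, b2})
      (Set.Countable.union hcon (Set.toFinite _).countable)
    apply hb'
    by_cases h : b ∈ ({b0, b1, b2} : Set Om1)
    · exact Or.inr h
    · exact Or.inl ⟨hb, h⟩
  let B : X → Fin 4 → Om1 := fun b => ![b0, b1, b2, b.1]
  have hBT : ∀ b k, B b k ∈ T := by
    intro b k
    fin_cases k
    · exact hb0
    · exact hb1
    · exact hb2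
    · exact b.2.1
  have hBi : ∀ b, Function.Injective (B b) := by
    intro b k l hkl
    have hb3 := b.2.2
    simp only [mem_insert_iff, mem_singleton_iff, not_or] at hb3
    obtain ⟨h30, h31, h32⟩ := hb3
    fin_cases k <;> fin_cases l <;> simp [B] at hkl ⊢ <;>
      first
      | exact hne01 hkl | exact hne01 hkl.symm | exact hne02 hkl | exact hne02 hkl.symm
      | exact hne12 hkl | exact hne12 hkl.symm | exact h30 hkl | exact h30 hkl.symm
      | exact h31 hkl | exact h31 hkl.symm | exact h32 hkl | exact h32 hkl.symm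
  have hex : ∀ b : X, ∃ (t : Fn J K3) (y : HX ι), (∀ k, t ≤ ⟨D (B b k), u (B b k)⟩) ∧
      t ∈ meets (F (∑ k, Finsupp.single (g0 (B b k)) 1) y) := by
    intro b
    obtain ⟨r, hr⟩ := Fn.exists_lb_family (fun k : Fin 4 => (⟨D (B b k), u (B b k)⟩ : Fn J K3)) (by
      intro k l i hi hi'
      simp only at hi hi' ⊢
      by_cases hkl : k = l
      · rw [hkl]
      · exact (hdis _ (hBT b k) _ (hBT b l) (fun h => hkl (hBi b h)) i hi hi').2)
    obtain ⟨t, ht, y, hy⟩ := IsFun.total (down_IsFun F q0 hfun r ((hr 0).trans (hu _ _)))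
      (∑ k, Finsupp.single (g0 (B b k)) 1)
    exact ⟨t, y, fun k => ht.trans (hr k), hy⟩
  choose t y ht hty using hex
  have hy : ∀ b, ∀ α ∈ (y b - y0).support, α ∈ (T0 : Set ι) := fun b =>
    key (B b) (hBT b) (hBi b) (ht b) (hty b)
  let Z : Type := {h : HX ι // ∀ α ∈ h.support, α ∈ (T0 : Set ι)}
  have hZ : Countable Z := by
    have hfin : Finite (T0 → ZMod 3) := inferInstance
    refine Function.Injective.countable (f := fun (h : Z) (α : T0) => h.1 α.1) ?_
    intro h h' hhh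
    apply Subtype.ext
    ext α
    by_cases hα : α ∈ T0
    · exact congrFun hhh ⟨α, hα⟩
    · have h3 : h.1 α = 0 := by
        by_contra h4
        exact hα (h.2 α (Finsupp.mem_support_iff.2 h4))
      have h4 : h'.1 α = 0 := by
        by_contra h4
        exact hα (h'.2 α (Finsupp.mem_support_iff.2 h4))
      rw [h3, h4]
  obtain ⟨b, b', hne, hz, s, hs, hs'⟩ := (Fn.pccc (J := J) (K := K3)).exists_compat_same
    (X := X) (Z := Z) (by
      refine lt_of_le_of_lt ?_ hX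
      refine (mul_le_mul' (Cardinal.mk_le_aleph0) le_rfl).trans ?_
      rw [Cardinal.aleph0_mul_aleph0]) t (fun b => ⟨y b - y0, hy b⟩)
  have hyy : y b = y b' := by
    have := congrArg Subtype.val hz
    simpa using this
  have hsq : s ≤ q0 := hs.trans ((ht b 0).trans (hu _ _))
  have h3 := IsInj.eq (down_IsInj F q0 hinj s hsq) (down_meets _ _ (hty b) s hs)
    (by rw [hyy]; exact down_meets _ _ (hty b') s hs')
  simp only [Fin.sum_univ_four, B, Matrix.cons_val_zero, Matrix.cons_val_one, Matrix.cons_val] at h3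
  have h4 : (Finsupp.single (g0 b.1) 1 : GX ι) = Finsupp.single (g0 b'.1) 1 := add_left_cancel h3
  apply hne
  apply Subtype.ext
  exact hg0 ((Finsupp.single_left_inj (by decide : (1 : ZMod 2) ≠ 0)).1 h4)

section

variable {J : Type} {j : ι → J} (hj : Function.Injective j)

open Classical in
theorem exists_Sn (h : HX ι) (p : Fn J K3) : ∃ q ≤ p, ∃ k, q ∈ Sn j h k := by
  obtain ⟨q, hq, ⟨h1, _⟩, _⟩ := exists_dom p (h.support.image j) (fun _ => 0)
  exact ⟨q, hq, _, fun α hα => h1 (Finset.mem_image_of_mem _ hα), rfl⟩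

theorem Sn_sub {h h' : HX ι} {k k' : K3} {p : Fn J K3} (hp : p ∈ Sn j h k) (hp' : p ∈ Sn j h' k') :
    p ∈ Sn j (h - h') (k - k') := by
  classical
  refine ⟨fun α hα => ?_, ?_⟩
  · rcases Finset.mem_union.1 (Finsupp.support_sub hα) with h1 | h1
    · exact hp.1 α h1
    · exact hp'.1 α h1
  · rw [ev_sub, hp.2, hp'.2]

include hj in
theorem isSubgpN_Vn (p : Fn J K3) : p ∈ IsSubgpN (Vn j) := by
  refine ⟨meets_of_mem ⟨by simp, by simp [ev]⟩, fun x y => fimp_of fun q _ h => ?_⟩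
  have h1 := Sn_sub (mem_of_meets_Sn hj h.1) (mem_of_meets_Sn hj h.2)
  rw [sub_zero] at h1
  exact meets_of_mem h1

theorem ctblIndexN_Vn (p : Fn J K3) : p ∈ CtblIndexN (Vn j) := by
  obtain ⟨enc, henc⟩ := exists_injective_nat K3
  let c : HX ι → ℕ → Set (Fn J K3) := fun x n => {p | ∃ k, enc k = n ∧ p ∈ Sn j x k}
  have hc : ∀ x n, Down (c x n) := by
    rintro x n p ⟨k, hk, hp⟩ q hq
    exact ⟨k, hk, down_Sn j x k p hp q hq⟩
  refine mem_fex_of_mem c ?_ ⟨⟨fun x => mem_fex.2 fun q _ => ?_, fun x n n' =>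
    fimp_of fun q _ h => ?_⟩, fun x y n => fimp_of fun q _ h => ?_⟩
  · exact down_fand (down_IsFun _) (down_fall fun _ => down_fall fun _ => down_fall fun _ =>
      down_fimp _ _)
  · obtain ⟨r, hr, k, hk⟩ := exists_Sn (j := j) x q
    exact ⟨r, hr, enc k, meets_of_mem ⟨k, rfl, hk⟩⟩
  · obtain ⟨r, hr, k, hk, hk2⟩ := exists_of_meets (hc x n) h.1
    obtain ⟨s, hs, k', hk', hk2'⟩ := exists_of_meets (hc x n') (down_meets _ _ h.2 r hr)
    show n = n'
    rw [← hk, ← hk', Sn_unique hk2 hk2' hs]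
  · apply meets_of_dense
    intro q' hq'
    obtain ⟨r, hr, k, hk, hk2⟩ := exists_of_meets (hc x n) (down_meets _ _ h.1 q' hq')
    obtain ⟨s, hs, k', hk', hk2'⟩ := exists_of_meets (hc y n)
      (down_meets _ _ h.2 r (hr.trans hq'))
    have hkk : k = k' := henc (hk.trans hk'.symm)
    have h1 := Sn_sub (down_Sn j x k r hk2 s hs) hk2'
    rw [hkk, sub_self] at h1
    exact ⟨s, hs.trans hr, meets_of_mem h1⟩

include hj in
theorem rhoNhdN_Vn (p : Fn J K3) : p ∈ RhoNhdN (Vn j) := by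
  refine mem_fex_of_mem (Vn j) ?_ ⟨isSubgpN_Vn hj p, ctblIndexN_Vn p, fun x =>
    fimp_of fun q _ h => h⟩
  exact down_fand (down_fand (down_meets _) (down_fall fun _ => down_fall fun _ =>
    down_fimp _ _)) (down_fand (down_fex _) (down_fall fun _ => down_fimp _ _))

include hj in
theorem ctblCoverN_Vn [Infinite ι] (p : Fn J K3) : p ∈ CtblCoverN (Vn j) := by
  classical
  obtain ⟨b⟩ : Nonempty (ℕ ↪ ι) := ⟨Infinite.natEmbedding ι⟩
  let a : ℕ → HX ι → Set (Fn J K3) := fun n y => {_p | y = Finsupp.single (b n) 1}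
  refine mem_fex_of_mem a ?_ ⟨⟨fun n => mem_fex.2 fun q _ =>
    ⟨q, le_rfl, Finsupp.single (b n) 1, meets_of_mem rfl⟩, fun n y y' => fimp_of fun q _ h => ?_⟩,
    fun x => mem_fex.2 fun q _ => ?_⟩
  · exact down_fand (down_IsFun _) (down_fall fun _ => down_fex _)
  · obtain ⟨r, hr, s, hs, -⟩ := h.1 q le_rfl
    obtain ⟨r', hr', s', hs', -⟩ := h.2 q le_rfl
    show y = y'
    exact Eq.trans hs (Eq.symm hs')
  · obtain ⟨q1, hq1, k, hk⟩ := exists_Sn (j := j) x q
    obtain ⟨n, hn⟩ : ∃ n, j (b n) ∉ q1.dom := by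
      by_contra hcon
      push Not at hcon
      have h1 : Set.range (fun n => j (b n)) ⊆ (q1.dom : Set J) := by
        rintro _ ⟨n, rfl⟩
        exact hcon n
      exact Set.infinite_range_of_injective (hj.comp b.injective)
        ((Finset.finite_toSet _).subset h1)
    obtain ⟨q2, hq2, ⟨h2, _⟩, h3⟩ := exists_dom q1 {j (b n)} (fun _ => k)
    have h4 : q2 ∈ Sn j (Finsupp.single (b n) 1) k := by
      refine ⟨fun α hα => ?_, ?_⟩
      · have := Finsupp.support_single_subset hα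
        rw [Finset.mem_singleton] at this
        subst this
        exact h2 (Finset.mem_singleton_self _)
      · simp only [ev]
        rw [Finsupp.sum_single_index (by simp)]
        rw [h3 _ (Finset.mem_singleton_self _) hn, one_smul]
    have h5 := Sn_sub (down_Sn j x k q1 hk q2 hq2) h4
    rw [sub_self] at h5
    refine ⟨q2, hq2.trans hq1, n, mem_fex_of_mem (Finsupp.single (b n) 1)
      (down_fand (down_meets _) (down_meets _)) ⟨meets_of_mem rfl, meets_of_mem h5⟩⟩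

include hj in
theorem frakNhdN_Vn [Infinite ι] (p : Fn J K3) : p ∈ FrakNhdN (Vn j) := by
  have h0 := isSubgpN_Vn hj p
  refine mem_fex_of_mem (fun _ => Vn j) ?_ ⟨fun x => fimp_of fun q _ h => h, fun n =>
    ⟨h0.1, fun x => fimp_of fun q hq h => ?_, fun x y => fimp_of fun q hq h => ?_,
      ctblCoverN_Vn hj p⟩⟩
  · exact down_fand (down_fall fun _ => down_fimp _ _) (down_fall fun _ =>
      down_fand (down_meets _) (down_fand (down_fall fun _ => down_fimp _ _)
        (down_fand (down_fall fun _ => down_fall fun _ => down_fimp _ _) (down_fex _))))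
  · have h1 := IsSubgpN.sub h0 hq (down_meets _ _ h0.1 q hq) h
    rwa [zero_sub] at h1
  · exact IsSubgpN.add h0 hq h.1 h.2

end

variable {J : Type} [Infinite ι] {g0 : Om1 → ι} (hg0 : Function.Injective g0) (hJ : #ι < #J)

include hg0 hJ in
theorem not_rho (p : Fn J K3) : p ∈ fnot (RhoHomeoNX ι (Fn J K3)) := by
  intro q _ hq
  obtain ⟨q1, _, F, hfun, hinj, _, hcont, _⟩ := mem_fex.1 hq q le_rfl
  obtain ⟨j, hj, hcore⟩ := core hg0 hJ F
  obtain ⟨q2, hq2, y0, hy0⟩ := IsFun.total hfun 0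
  obtain ⟨q3, hq3, h3⟩ := mem_fimp.1 (hcont 0 y0) q2 hq2 hy0
  obtain ⟨q4, hq4, h4⟩ := mem_fimp.1 (h3 (Vn j)) q3 le_rfl (rhoNhdN_Vn hj q3)
  obtain ⟨q5, hq5, U, hU, hUV⟩ := mem_fex.1 h4 q4 le_rfl
  obtain ⟨q6, hq6, U', hU', hc, hU'U⟩ := mem_fex.1 hU q5 le_rfl
  obtain ⟨q7, hq7, c, hcf, hcU⟩ := mem_fex.1 hc q6 le_rfl
  have h71 : q7 ≤ q1 := hq7.trans (hq6.trans (hq5.trans (hq4.trans (hq3.trans hq2))))
  refine hcore q7 (fun a n => meets (c a n)) y0 (down_IsFun F _ hfun _ h71)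
    (down_IsInj F _ hinj _ h71) (fun a n => down_meets _) (fun a r hr =>
      IsFun.total (down_IsFun c _ hcf r hr) a) ?_
  intro a b a' b' n n' y r hr ha hb ha' hb' hy
  have k1 : r ∈ meets (U' (a - b)) :=
    of_fimp (hcU a b n) (down_fand (down_meets _) (down_meets _)) hr ⟨ha, hb⟩
  have k2 : r ∈ meets (U' (a' - b')) :=
    of_fimp (hcU a' b' n') (down_fand (down_meets _) (down_meets _)) hr ⟨ha', hb'⟩
  have k3 : r ∈ meets (U' ((a - b) + (a' - b'))) := IsSubgpN.add hU' (hr.trans hq7) k1 k2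
  have k4 : r ∈ meets (U ((a - b) + (a' - b'))) :=
    of_fimp (hU'U _) (down_meets _) (hr.trans hq7) k3
  exact of_fimp (hUV ((a - b) + (a' - b')) y) (down_fand (down_meets _) (down_meets _))
    (hr.trans (hq7.trans hq6)) ⟨hy, by rwa [sub_zero]⟩

include hg0 hJ in
theorem not_frak (p : Fn J K3) : p ∈ fnot (FrakHomeoNX ι (Fn J K3)) := by
  intro q _ hq
  obtain ⟨q1, _, F, hfun, hinj, _, hcont, _⟩ := mem_fex.1 hq q le_rfl
  obtain ⟨j, hj, hcore⟩ := core hg0 hJ F
  obtain ⟨q2, hq2, y0, hy0⟩ := IsFun.total hfun 0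
  obtain ⟨q3, hq3, h3⟩ := mem_fimp.1 (hcont 0 y0) q2 hq2 hy0
  obtain ⟨q4, hq4, h4⟩ := mem_fimp.1 (h3 (Vn j)) q3 le_rfl (frakNhdN_Vn hj q3)
  obtain ⟨q5, hq5, U, hU, hUV⟩ := mem_fex.1 h4 q4 le_rfl
  obtain ⟨q6, hq6, W, hW0, hW⟩ := mem_fex.1 hU q5 le_rfl
  obtain ⟨q7, hq7, g, hgf, hg⟩ := mem_fex.1 (hW 2).2.2.2 q6 le_rfl
  have h71 : q7 ≤ q1 := hq7.trans (hq6.trans (hq5.trans (hq4.trans (hq3.trans hq2))))
  refine hcore q7 (fun a n => {r | ∃ y, r ∈ meets (g n y) ∧ r ∈ meets (W 2 (a - y))}) y0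
    (down_IsFun F _ hfun _ h71) (down_IsInj F _ hinj _ h71) ?_ ?_ ?_
  · rintro a n r ⟨y, h5, h6⟩ s hs
    exact ⟨y, down_meets _ _ h5 s hs, down_meets _ _ h6 s hs⟩
  · intro a r hr
    obtain ⟨r1, hr1, n, hn⟩ := mem_fex.1 (hg a) r hr
    obtain ⟨r2, hr2, y, hy⟩ := mem_fex.1 hn r1 le_rfl
    exact ⟨r2, hr2.trans hr1, n, y, hy⟩
  · have key : ∀ a b n, ∀ r ≤ q7, (∃ y, r ∈ meets (g n y) ∧ r ∈ meets (W 2 (a - y))) →
        (∃ y, r ∈ meets (g n y) ∧ r ∈ meets (W 2 (b - y))) → r ∈ meets (W 1 (a - b)) := by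
      rintro a b n r hr ⟨y, h5, h6⟩ ⟨y', h7, h8⟩
      have hyy : y = y' := IsFun.unique (down_IsFun g _ hgf r hr) h5 h7
      subst hyy
      have h9 : r ∈ meets (W 2 (-(b - y))) :=
        of_fimp ((hW 2).2.1 (b - y)) (down_meets _) (hr.trans hq7) h8
      have h10 : r ∈ meets (W 1 ((a - y) + -(b - y))) :=
        of_fimp ((hW 1).2.2.1 (a - y) (-(b - y))) (down_fand (down_meets _) (down_meets _))
          (hr.trans hq7) ⟨h6, h9⟩
      have h11 : (a - y) + -(b - y) = a - b := by abel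
      rwa [h11] at h10
    intro a b a' b' n n' y r hr ha hb ha' hb' hy
    have k1 := key a b n r hr ha hb
    have k2 := key a' b' n' r hr ha' hb'
    have k3 : r ∈ meets (W 0 ((a - b) + (a' - b'))) :=
      of_fimp ((hW 0).2.2.1 _ _) (down_fand (down_meets _) (down_meets _)) (hr.trans hq7) ⟨k1, k2⟩
    have k4 : r ∈ meets (U ((a - b) + (a' - b'))) :=
      of_fimp (hW0 _) (down_meets _) (hr.trans hq7) k3
    exact of_fimp (hUV ((a - b) + (a' - b')) y) (down_fand (down_meets _) (down_meets _))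
      (hr.trans (hq7.trans hq6)) ⟨hy, by rwa [sub_zero]⟩

end Pool.Agent.Y582.CG
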