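import Pool.Agent.W631.CG.Pos

/-!
# Martin's axiom for `κ` dense sets gives homeomorphisms for `κ` copies

This is a copy of the arguments of `Pool.Agent.H38R3.QMA`, `QBaseW`, `QFinal` and
`Pool.Agent.W631.CG.Pos` with `ℵ₁` replaced by an arbitrary infinite cardinal.
-/

set_option autoImplicit false

namespace Pool.Agent.Y582.CG

open Function Set Filter Topology Cardinal Pool.Agent.W684.FM H38Q Pool.Agent.W631.CG
open scoped NNReal ENNReal

/-- Martin's axiom for σ-centred posets and at most `κ` dense sets -/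
def MASC (κ : Cardinal.{0}) : Prop :=
  ∀ (P : Type) [Preorder P] [Nonempty P], SigmaCentered P →
    ∀ 𝒟 : Set (Set P), #𝒟 ≤ κ → (∀ d ∈ 𝒟, ∀ p, ∃ q ∈ d, q ≤ p) →
      ∃ G : Set P, G.Nonempty ∧ (∀ p ∈ G, ∀ q, p ≤ q → q ∈ G) ∧
        (∀ p ∈ G, ∀ q ∈ G, ∃ r ∈ G, r ≤ p ∧ r ≤ q) ∧ ∀ d ∈ 𝒟, (G ∩ d).Nonempty

/-- Martin's axiom for `κ` dense sets implies its restriction to σ-centred posets. -/
theorem masc {κ : Cardinal.{0}} (h : MartinAxiomCard κ) : MASC κ := by
  intro P _ _ hP 𝒟 h𝒟 hd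
  obtain ⟨c, hc⟩ := hP
  refine h P ?_ 𝒟 h𝒟 hd
  intro A hA
  rw [Set.countable_iff_exists_injOn]
  refine ⟨c, fun p hp q hq hpq => ?_⟩
  by_contra hne
  classical
  obtain ⟨r, hr⟩ := hc {p, q} ⟨p, by simp⟩ (by
    intro a ha b hb
    simp only [Finset.mem_insert, Finset.mem_singleton] at ha hb
    rcases ha with rfl | rfl <;> rcases hb with rfl | rfl
    · rfl
    · exact hpq
    · exact hpq.symm
    · rfl)
  exact hA p hp q hq hne ⟨r, hr p (by simp), hr q (by simp)⟩

/-- approximation of a map on `κ` branches by a node function of finite variation -/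
theorem ma_lemmaG {κ : Cardinal.{0}} (hκ : ℵ₀ ≤ κ) (hMA : MASC κ) {Y : Type} [AddCommGroup Y] {ρ : Y → ℝ} (hρ : IsSN ρ)
    (hs : Sep' ρ) {D : Set (ℕ → Bool)} (hD : #D ≤ κ) (m : D → Y) :
    ∃ g : List Bool → Y, g [] = 0 ∧
      (∀ x : D, ∃ K, ∀ n, ∑ i ∈ Finset.range n, ρ (g (PiNat.res x.1 (i + 1)) -
        g (PiNat.res x.1 i)) ≤ K) ∧
      ∀ E : Finset D, ∀ ε > 0, ∃ N, ∀ x ∈ E, ρ (m x - g (PiNat.res x.1 N)) < ε := by
  classical
  obtain ⟨a, ha⟩ := hs.exists_seq
  let 𝒟 : Set (Set (Cond ρ a D m)) := Set.range (fun k : ℕ => {p | k ≤ p.N}) ∪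
    Set.range (fun q : D × ℕ => {p | q.1 ∈ p.F ∧ p.B q.1 < 1 / ((q.2 : ℝ) + 1)})
  have h𝒟 : #𝒟 ≤ κ := by
    have h1 : #(Set.range (fun k : ℕ => {p : Cond ρ a D m | k ≤ p.N})) ≤ κ :=
      mk_range_le.trans (by rw [mk_nat]; exact hκ)
    have h2 : #(Set.range (fun q : D × ℕ => {p : Cond ρ a D m | q.1 ∈ p.F ∧
        p.B q.1 < 1 / ((q.2 : ℝ) + 1)})) ≤ κ := by
      refine mk_range_le.trans ?_
      rw [mk_prod, lift_id, lift_id, mk_nat]
      calc #D * ℵ₀ ≤ κ * κ := mul_le_mul' hD hκ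
        _ = κ := mul_eq_self hκ
    exact (mk_union_le _ _).trans ((add_le_add h1 h2).trans (add_eq_self hκ).le)
  haveI : Nonempty (Cond ρ a D m) := ⟨⟨0, 0, ∅, fun _ => 0, fun _ _ => rfl, by simp⟩⟩
  obtain ⟨G, _, _, hGdir, hGd⟩ := hMA (Cond ρ a D m) Cond.sigmaCentered 𝒟 h𝒟 (by
    rintro d (⟨k, rfl⟩ | ⟨q, rfl⟩) p
    · exact Cond.dense_level hρ k p
    · obtain ⟨q', h1, h2⟩ := Cond.dense_small hρ ha q.1 (ε := 1 / ((q.2 : ℝ) + 1))
        (by positivity) p
      exact ⟨q', h1, h2⟩)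
  have hlev : ∀ k : ℕ, ∃ p ∈ G, k ≤ p.N := by
    intro k
    obtain ⟨p, hp, hpk⟩ := hGd _ (Or.inl ⟨k, rfl⟩)
    exact ⟨p, hp, hpk⟩
  have hsmall : ∀ (x : D) (k : ℕ), ∃ p ∈ G, x ∈ p.F ∧ p.B x < 1 / ((k : ℝ) + 1) := by
    intro x k
    obtain ⟨p, hp, hpk⟩ := hGd _ (Or.inr ⟨(x, k), rfl⟩)
    exact ⟨p, hp, hpk⟩
  choose P hPG hPN using hlev
  let mv : List Bool → ℕ := fun t => (P t.length).mv t
  have hmv : ∀ p ∈ G, ∀ t : List Bool, t.length ≤ p.N → mv t = p.mv t := by
    intro p hp t ht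
    obtain ⟨r, _, hrp, hrq⟩ := hGdir p hp (P t.length) (hPG _)
    rw [Cond.le_def] at hrp hrq
    simp only [mv]
    rw [← hrp.2.1 t ht, ← hrq.2.1 t (hPN _)]
  have hgv : ∀ p ∈ G, ∀ t : List Bool, t.length ≤ p.N → gv a mv t = gv a p.mv t := by
    intro p hp t ht
    exact gv_congr a t (fun s hs => hmv p hp s (hs.trans ht))
  refine ⟨gv a mv, rfl, ?_, ?_⟩
  · intro x
    obtain ⟨p, hp, hxp, _⟩ := hsmall x 0
    refine ⟨(∑ i ∈ Finset.range p.N, ρ (gv a mv (PiNat.res x.1 (i + 1)) -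
      gv a mv (PiNat.res x.1 i))) + p.B x, ?_⟩
    intro n
    obtain ⟨r, hr, hrp, hrq⟩ := hGdir p hp (P n) (hPG n)
    rw [Cond.le_def] at hrp hrq
    have hn : n ≤ r.N := (hPN n).trans hrq.1
    have h1 : ∑ i ∈ Finset.range n, ρ (gv a mv (PiNat.res x.1 (i + 1)) -
        gv a mv (PiNat.res x.1 i)) ≤ ∑ i ∈ Finset.range r.N, ρ (gv a mv (PiNat.res x.1 (i + 1)) -
        gv a mv (PiNat.res x.1 i)) := by
      apply Finset.sum_le_sum_of_subset_of_nonneg
      · intro i hi
        rw [Finset.mem_range] at hi ⊢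
        omega
      · intro i _ _
        exact hρ.nonneg _
    have h2 : ∑ i ∈ Finset.range r.N, ρ (gv a mv (PiNat.res x.1 (i + 1)) -
        gv a mv (PiNat.res x.1 i)) = (∑ i ∈ Finset.range p.N, ρ (gv a mv (PiNat.res x.1 (i + 1)) -
        gv a mv (PiNat.res x.1 i))) + cost ρ a r.mv x.1 p.N r.N := by
      rw [← Finset.sum_range_add_sum_Ico _ hrp.1, cost]
      congr 1
      apply Finset.sum_congr rfl
      intro i hi
      rw [Finset.mem_Ico] at hi
      rw [hgv r hr _ (by rw [PiNat.res_length]; omega), hgv r hr _ (by rw [PiNat.res_length]; omega)]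
    have h3 := hrp.2.2.2 x hxp
    have h4 : 0 ≤ r.B x := (hρ.nonneg _).trans (r.h2 x (hrp.2.2.1 hxp)).le
    linarith
  · intro E ε hε
    obtain ⟨k, hk⟩ := exists_nat_one_div_lt hε
    -- a common condition
    have hcom : ∀ E : Finset D, ∃ r ∈ G, ∀ x ∈ E, x ∈ r.F ∧ r.B x < 1 / ((k : ℝ) + 1) := by
      intro E
      induction E using Finset.induction_on with
      | empty => exact ⟨P 0, hPG 0, by simp⟩
      | insert x E _ ih =>
        obtain ⟨r, hr, hrE⟩ := ih
        obtain ⟨p, hp, hxp, hpB⟩ := hsmall x k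
        obtain ⟨q, hq, hqr, hqp⟩ := hGdir r hr p hp
        rw [Cond.le_def] at hqr hqp
        have hB : ∀ (p : Cond ρ a D m) (y : D), y ∈ p.F → cost ρ a q.mv y.1 p.N q.N + q.B y ≤ p.B y →
            p.B y < 1 / ((k : ℝ) + 1) → q.B y < 1 / ((k : ℝ) + 1) := by
          intro p y _ h1 h2
          have h3 : 0 ≤ cost ρ a q.mv y.1 p.N q.N := Finset.sum_nonneg (fun i _ => hρ.nonneg _)
          linarith
        refine ⟨q, hq, ?_⟩
        intro y hy
        rcases Finset.mem_insert.1 hy with rfl | hy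
        · exact ⟨hqp.2.2.1 hxp, hB p y hxp (hqp.2.2.2 y hxp) hpB⟩
        · exact ⟨hqr.2.2.1 (hrE y hy).1, hB r y (hrE y hy).1 (hqr.2.2.2 y (hrE y hy).1) (hrE y hy).2⟩
    obtain ⟨r, hr, hrE⟩ := hcom E
    refine ⟨r.N, ?_⟩
    intro x hx
    rw [hgv r hr _ (by rw [PiNat.res_length])]
    exact (r.h2 x (hrE x hx).1).trans ((hrE x hx).2.trans hk)

section

variable {D : Set (ℕ → Bool)} {m : ℕ} {w : ℕ → ℕ}

theorem isBaseG {κ : Cardinal.{0}} (hκ : ℵ₀ ≤ κ) [NeZero m] (hMA : MASC κ) (hD : #D ≤ κ) (hw : StrictMono w)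
    (hw0 : w 0 = 0) {t : TopologicalSpace (X D (ℕ →₀ ZMod m))}
    (ht : t ∈ OmegaTops (X D (ℕ →₀ ZMod m))) {U : Set (X D (ℕ →₀ ZMod m))}
    (hU : U ∈ @nhds _ t 0) :
    ∃ C, GoodW D C ∧ ∀ v : X D (ℕ →₀ ZMod m), (nu (nrm w) C v).toReal < 1 → v ∈ U := by
  classical
  obtain ⟨ρ, hρ, hsep, hρU⟩ := exists_seminorm_of_top ht hU
  let mj : ℕ → D → (ZMod m →+ X D (ℕ →₀ ZMod m)) := fun j x =>
    (Finsupp.singleAddHom x).comp (Finsupp.singleAddHom j)
  have hma := fun j => ma_lemmaG hκ hMA (rhoY_isSN (m := m) hρ) (rhoY_sep hsep) hD (mj j)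
  choose g hg0 hgK hgN using hma
  let u : ℕ → List Bool → ℝ≥0∞ := fun j t => ENNReal.ofReal (rhoY ρ (g j t - g j t.tail))
  let C : List Bool → ℕ → ℝ≥0∞ := fun t k => ∑ j ∈ Finset.range (w k), u j t
  have hY := rhoY_isSN (m := m) hρ
  have hC : GoodW D C := by
    refine ⟨fun t => by simp [C, hw0], ?_, ?_⟩
    · intro t k l hkl
      apply Finset.sum_le_sum_of_subset
      intro j hj
      rw [Finset.mem_range] at hj ⊢
      exact lt_of_lt_of_le hj (hw.monotone hkl)
    · intro x hx k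
      simp only [C]
      rw [Summable.tsum_finsetSum (fun _ _ => ENNReal.summable), ENNReal.sum_ne_top]
      intro j _
      obtain ⟨K, hK⟩ := hgK j ⟨x, hx⟩
      refine ne_top_of_le_ne_top (b := ENNReal.ofReal K) ENNReal.ofReal_ne_top ?_
      rw [ENNReal.tsum_eq_iSup_nat]
      apply iSup_le
      intro n
      have h1 : ∑ i ∈ Finset.range n, u j (PiNat.res x i) ≤
          ∑ i ∈ Finset.range (n + 1), u j (PiNat.res x i) :=
        Finset.sum_le_sum_of_subset (fun i hi => by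
          rw [Finset.mem_range] at hi ⊢
          omega)
      refine h1.trans ?_
      rw [Finset.sum_range_succ']
      have h2 : u j (PiNat.res x 0) = 0 := by
        simp [u, PiNat.res_zero, hY.zero]
      rw [h2, add_zero]
      have h3 : ∑ i ∈ Finset.range n, u j (PiNat.res x (i + 1)) =
          ENNReal.ofReal (∑ i ∈ Finset.range n, rhoY ρ (g j (PiNat.res x (i + 1)) -
            g j (PiNat.res x i))) := by
        rw [ENNReal.ofReal_sum_of_nonneg (fun i _ => hY.nonneg _)]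
        apply Finset.sum_congr rfl
        intro i _
        simp only [u, PiNat.res_succ, List.tail_cons]
      rw [h3]
      exact ENNReal.ofReal_le_ofReal (hK n)
  refine ⟨C, hC, ?_⟩
  intro v hv
  -- the main inequality
  have hmain : ENNReal.ofReal (ρ v) ≤ nu (nrm w) C v := by
    set E := v.support with hE
    let J : Finset ℕ := E.biUnion (fun x => (v x).support)
    let S : ℕ → X D (ℕ →₀ ZMod m) := fun j => ∑ x ∈ E, mj j x ((v x) j)
    let G : ℕ → ℕ → X D (ℕ →₀ ZMod m) := fun j n => ∑ x ∈ E, g j (PiNat.res x.1 n) ((v x) j)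
    let L : ℕ → ℝ≥0∞ := fun j => ∑' t, (if (sg t v) j = 0 then 0 else u j t)
    -- decomposition
    have hvS : v = ∑ j ∈ J, S j := by
      have h1 : v = ∑ x ∈ E, ∑ j ∈ J, mj j x ((v x) j) := by
        conv_lhs => rw [← Finsupp.sum_single v, Finsupp.sum]
        apply Finset.sum_congr rfl
        intro x hx
        have h2 : v x = ∑ j ∈ J, Finsupp.single j ((v x) j) := by
          conv_lhs => rw [← Finsupp.sum_single (v x), Finsupp.sum]
          apply Finset.sum_subset (Finset.subset_biUnion_of_mem (fun x => (v x).support) hx)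
          intro j _ hj
          rw [Finsupp.notMem_support_iff] at hj
          rw [hj, Finsupp.single_zero]
        have h3 : Finsupp.single x (v x) =
            (Finsupp.singleAddHom x) (∑ j ∈ J, Finsupp.single j ((v x) j)) := by
          rw [← h2]
          rfl
        rw [h3, map_sum]
        rfl
      rw [Finset.sum_comm] at h1
      exact h1
    -- finite approximations
    have hG : ∀ j n, ENNReal.ofReal (ρ (G j n)) ≤ ∑ i ∈ Finset.range n,
        ∑ s ∈ E.image (fun x => PiNat.res x.1 (i + 1)),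
          (if (sg s v) j = 0 then 0 else u j s) := by
      intro j n
      induction n with
      | zero =>
        have h1 : G j 0 = 0 := by
          apply Finset.sum_eq_zero
          intro x _
          rw [PiNat.res_zero, hg0]
          rfl
        rw [h1, hρ.zero]
        simp
      | succ n ih =>
        have h1 : G j (n + 1) = G j n + ∑ s ∈ E.image (fun x => PiNat.res x.1 (n + 1)),
            (g j s - g j s.tail) ((sg s v) j) := by
          have h2 : G j (n + 1) = G j n +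
              ∑ x ∈ E, (g j (PiNat.res x.1 (n + 1)) - g j (PiNat.res x.1 n)) ((v x) j) := by
            simp only [G]
            rw [← Finset.sum_add_distrib]
            apply Finset.sum_congr rfl
            intro x _
            rw [AddMonoidHom.sub_apply]
            abel
          rw [h2]
          congr 1
          rw [← Finset.sum_fiberwise_of_maps_to (s := E)
            (t := E.image (fun x => PiNat.res x.1 (n + 1)))
            (g := fun x => PiNat.res x.1 (n + 1))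
            (fun x hx => Finset.mem_image_of_mem _ hx)]
          apply Finset.sum_congr rfl
          intro s hs
          obtain ⟨x0, _, hx0⟩ := Finset.mem_image.1 hs
          have hslen : s.length = n + 1 := by rw [← hx0, PiNat.res_length]
          have h2 : ∀ x ∈ E.filter (fun x => PiNat.res x.1 (n + 1) = s),
              (g j (PiNat.res x.1 (n + 1)) - g j (PiNat.res x.1 n)) ((v x) j) =
              (g j s - g j s.tail) ((v x) j) := by
            intro x hx
            have h3 := (Finset.mem_filter.1 hx).2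
            have h4 : PiNat.res x.1 n = s.tail := by
              rw [← h3, PiNat.res_succ, List.tail_cons]
            rw [h3, h4]
          rw [Finset.sum_congr rfl h2, ← map_sum]
          congr 1
          rw [sg_apply, Finsupp.finsetSum_apply, Finset.sum_filter]
          apply Finset.sum_congr rfl
          intro x _
          rw [hslen]
          split_ifs <;> simp
        rw [Finset.sum_range_succ, h1]
        have h2 := hρ.add (G j n) (∑ s ∈ E.image (fun x => PiNat.res x.1 (n + 1)),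
            (g j s - g j s.tail) ((sg s v) j))
        refine (ENNReal.ofReal_le_ofReal h2).trans ?_
        rw [ENNReal.ofReal_add (hρ.nonneg _) (hρ.nonneg _)]
        apply add_le_add ih
        refine (ENNReal.ofReal_le_ofReal (hρ.sum_le _ _)).trans ?_
        rw [ENNReal.ofReal_sum_of_nonneg (fun _ _ => hρ.nonneg _)]
        apply Finset.sum_le_sum
        intro s _
        by_cases h3 : (sg s v) j = 0
        · rw [if_pos h3, h3, map_zero, hρ.zero, ENNReal.ofReal_zero]
        · rw [if_neg h3]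
          exact ENNReal.ofReal_le_ofReal (rho_le_rhoY hρ _ _)
    have hGL : ∀ j n, ENNReal.ofReal (ρ (G j n)) ≤ L j := by
      intro j n
      refine (hG j n).trans ?_
      rw [← Finset.sum_biUnion]
      · exact ENNReal.sum_le_tsum _
      · intro i _ k _ hik
        rw [Function.onFun, Finset.disjoint_left]
        intro s hs hs'
        obtain ⟨x, _, hx⟩ := Finset.mem_image.1 hs
        obtain ⟨y, _, hy⟩ := Finset.mem_image.1 hs'
        apply hik
        have h1 : i + 1 = s.length := (PiNat.res_length x.1 (i + 1)).symm.trans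
          (congrArg List.length hx)
        have h2 : k + 1 = s.length := (PiNat.res_length y.1 (k + 1)).symm.trans
          (congrArg List.length hy)
        omega
    have hSL : ∀ j, ENNReal.ofReal (ρ (S j)) ≤ L j := by
      intro j
      apply ENNReal.le_of_forall_pos_le_add
      intro ε hε _
      have hcard : (0 : ℝ) < (E.card : ℝ) + 1 := Nat.cast_add_one_pos _
      have hεr : (0 : ℝ) < (ε : ℝ) := NNReal.coe_pos.2 hε
      obtain ⟨n, hn⟩ := hgN j E (ε / ((E.card : ℝ) + 1)) (div_pos hεr hcard)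
      have h1 : S j = G j n + ∑ x ∈ E, (mj j x - g j (PiNat.res x.1 n)) ((v x) j) := by
        simp only [S, G]
        rw [← Finset.sum_add_distrib]
        apply Finset.sum_congr rfl
        intro x _
        rw [AddMonoidHom.sub_apply]
        abel
      have h2 : ρ (∑ x ∈ E, (mj j x - g j (PiNat.res x.1 n)) ((v x) j)) ≤ ε := by
        refine (hρ.sum_le _ _).trans ?_
        have h3 : ∑ x ∈ E, ρ ((mj j x - g j (PiNat.res x.1 n)) ((v x) j)) ≤
            ∑ _x ∈ E, (ε : ℝ) / ((E.card : ℝ) + 1) :=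
          Finset.sum_le_sum (fun x hx => (rho_le_rhoY hρ _ _).trans (hn x hx).le)
        refine h3.trans ?_
        rw [Finset.sum_const, nsmul_eq_mul, mul_div_assoc', div_le_iff₀ hcard]
        have h4 : (0 : ℝ) ≤ ε := ε.2
        nlinarith
      rw [h1]
      refine (ENNReal.ofReal_le_ofReal (hρ.add _ _)).trans ?_
      rw [ENNReal.ofReal_add (hρ.nonneg _) (hρ.nonneg _)]
      apply add_le_add (hGL j n)
      refine (ENNReal.ofReal_le_ofReal h2).trans ?_
      rw [ENNReal.ofReal_coe_nnreal]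
    have h1 : ENNReal.ofReal (ρ v) ≤ ∑ j ∈ J, L j := by
      conv_lhs => rw [hvS]
      refine (ENNReal.ofReal_le_ofReal (hρ.sum_le _ _)).trans ?_
      rw [ENNReal.ofReal_sum_of_nonneg (fun _ _ => hρ.nonneg _)]
      exact Finset.sum_le_sum (fun j _ => hSL j)
    refine h1.trans ?_
    simp only [L]
    rw [← Summable.tsum_finsetSum (fun _ _ => ENNReal.summable)]
    apply ENNReal.tsum_le_tsum
    intro s
    have h2 : ∑ j ∈ J, (if (sg s v) j = 0 then 0 else u j s) =
        ∑ j ∈ J.filter (fun j => (sg s v) j ≠ 0), u j s := by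
      rw [Finset.sum_filter]
      apply Finset.sum_congr rfl
      intro j _
      by_cases h : (sg s v) j = 0
      · rw [if_pos h, if_neg (not_not.2 h)]
      · rw [if_neg h, if_pos h]
    rw [h2]
    apply Finset.sum_le_sum_of_subset
    intro j hj
    rw [Finset.mem_filter] at hj
    rw [Finset.mem_range]
    by_contra hcon
    exact hj.2 ((nrm_le_iff hw _ _).1 le_rfl j (by omega))
  apply hρU
  have hfin := nu_ne_top (isUNorm_nrm (m := m) hw hw0) hC v
  have h1 : nu (nrm w) C v < 1 := by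
    rw [← ENNReal.toReal_lt_toReal hfin ENNReal.one_ne_top, ENNReal.toReal_one]
    exact hv
  have h2 := hmain.trans_lt h1
  rwa [← ENNReal.ofReal_one, ENNReal.ofReal_lt_ofReal_iff one_pos] at h2

end

/-- the homeomorphism for the finest omega bounded group topologies -/
theorem homeo_frakG {κ : Cardinal.{0}} (hκ : ℵ₀ ≤ κ) (hc : κ ≤ 𝔠) (hMA : MASC κ) {ι : Type}
    (hι : #ι = κ) {m n : ℕ} (hm : 2 ≤ m)
    (hn : 2 ≤ n) : Nonempty (@Homeomorph (ι →₀ ZMod m) (ι →₀ ZMod n) (frakG _) (frakG _)) := by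
  haveI : NeZero m := ⟨by omega⟩
  haveI : NeZero n := ⟨by omega⟩
  -- a set of branches of size aleph one
  have hcard : κ ≤ #(ℕ → Bool) := by
    have h1 : #(ℕ → Bool) = 𝔠 := by simp
    rw [h1]
    exact hc
  obtain ⟨D, hD⟩ := le_mk_iff_exists_set.1 hcard
  have h1 : #ι = #(D × ℕ) := by
    rw [Cardinal.mk_prod, Cardinal.lift_id, Cardinal.lift_id, Cardinal.mk_nat, hι, hD]
    rw [Cardinal.mul_aleph0_eq hκ]
  obtain ⟨e⟩ := Cardinal.eq.1 h1
  have key : ∀ k : ℕ, Nonempty (@Homeomorph (ι →₀ ZMod k) (X D (ℕ →₀ ZMod k)) (frakG _)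
      (frakG _)) := by
    intro k
    let E : (ι →₀ ZMod k) ≃+ (X D (ℕ →₀ ZMod k)) :=
      (Finsupp.domCongr e).trans Finsupp.curryAddEquiv
    exact frakG_homeo E
  obtain ⟨f⟩ := key m
  obtain ⟨g⟩ := key n
  have hw := wl_strictMono (c := m + n) (by omega)
  have hA := isUNorm_nrm (m := m) hw rfl
  have hB := isUNorm_nrm (m := n) hw rfl
  obtain ⟨M⟩ := exists_mat hm hn
  have h0 : Rel (nrm (wl (m + n)) : (ℕ →₀ ZMod m) → ℕ) (nrm (wl (m + n)) : (ℕ →₀ ZMod n) → ℕ)
      0 0 := by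
    refine ⟨by simp, ?_, ?_⟩
    · rw [(hA.zero_iff 0).2 rfl, (hB.zero_iff 0).2 rfl]
      omega
    · rw [(hA.zero_iff 0).2 rfl, (hB.zero_iff 0).2 rfl]
      omega
  haveI : Countable (ZMod m) := Finite.to_countable
  haveI : Countable (ZMod n) := Finite.to_countable
  obtain ⟨h⟩ := M.homeoW (D := D) hA hB h0
    (fun U hU => isBaseG hκ hMA hD.le hw rfl (isLeast_frakG _).1 hU)
    (fun U hU => isBaseG hκ hMA hD.le hw rfl (isLeast_frakG _).1 hU)
  letI := frakG (ι →₀ ZMod m)
  letI := frakG (ι →₀ ZMod n)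
  letI := frakG (X D (ℕ →₀ ZMod m))
  letI := frakG (X D (ℕ →₀ ZMod n))
  exact ⟨(f.trans h).trans g.symm⟩

section

variable {A : Set (ℕ → Bool)}

theorem isQSetG {κ : Cardinal.{0}} (hκ : ℵ₀ ≤ κ) (hMA : MASC κ) {D : Set (ℕ → Bool)} (hD : #D ≤ κ) : IsQSet D := by
  classical
  intro A hA
  have : Nonempty (Cd A) := ⟨⟨∅, ∅⟩⟩
  let d : A → Set (Cd A) := fun x => {p | x ∈ p.F}
  let e : (D \ A : Set (ℕ → Bool)) × ℕ → Set (Cd A) := fun y =>
    {p | ∃ t ∈ p.s, y.2 ≤ t.length ∧ PiNat.res y.1.1 t.length = t}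
  have hcard : #((Set.range d) ∪ (Set.range e) : Set (Set (Cd A))) ≤ κ := by
    refine (Cardinal.mk_union_le _ _).trans ?_
    have h1 : #(Set.range d) ≤ κ := Cardinal.mk_range_le.trans
      ((Cardinal.mk_le_mk_of_subset hA).trans hD)
    have h2 : #(Set.range e) ≤ κ := by
      refine Cardinal.mk_range_le.trans ?_
      rw [Cardinal.mk_prod, Cardinal.lift_id, Cardinal.lift_id]
      refine (mul_le_mul' ((Cardinal.mk_le_mk_of_subset sdiff_subset).trans hD)
        (Cardinal.mk_le_aleph0 (α := ℕ))).trans ?_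
      rw [Cardinal.mul_aleph0_eq hκ]
    refine (add_le_add h1 h2).trans ?_
    rw [Cardinal.add_eq_self hκ]
  obtain ⟨G, hG1, hG2, hG3, hG4⟩ := hMA (Cd A) Cd.sigmaCentered _ hcard (by
    rintro _ (⟨x, rfl⟩ | ⟨⟨y, n⟩, rfl⟩) p
    · exact ⟨⟨p.s, insert x p.F⟩, Finset.mem_insert_self _ _,
        ⟨subset_rfl, Finset.subset_insert _ _, fun t ht ht' => absurd ht ht'⟩⟩
    · have h1 : ∀ x : A, ∃ k, x.1 k ≠ y.1 k := by
        intro x
        by_contra hcon
        push Not at hcon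
        exact y.2.2 (by rw [← funext hcon]; exact x.2)
      choose k hk using h1
      let m := max n (p.F.sup k + 1)
      refine ⟨⟨insert (PiNat.res y.1 m) p.s, p.F⟩, ⟨_, Finset.mem_insert_self _ _, ?_, ?_⟩,
        ⟨Finset.subset_insert _ _, subset_rfl, fun t ht ht' x hx h => ?_⟩⟩
      · rw [PiNat.res_length]
        exact le_max_left _ _
      · rw [PiNat.res_length]
      · rcases Finset.mem_insert.1 ht with rfl | ht
        · rw [PiNat.res_length, PiNat.res_eq_res] at h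
          have h2 : k x ≤ p.F.sup k := Finset.le_sup hx
          exact hk x (h (lt_of_lt_of_le (Nat.lt_succ_of_le h2) (le_max_right _ _)))
        · exact ht' ht)
  let S : Set (List Bool) := {t | ∃ p ∈ G, t ∈ p.s}
  refine ⟨fun N => {z | ∀ m ≥ N, PiNat.res z m ∉ S}, fun N => ?_, ?_⟩
  · have h1 : {z : ℕ → Bool | ∀ m ≥ N, PiNat.res z m ∉ S} =
        ⋂ m, ⋂ _ : m ≥ N, {z | PiNat.res z m ∉ S} := by
      ext z
      simp
    show IsClosed {z : ℕ → Bool | ∀ m ≥ N, PiNat.res z m ∉ S}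
    rw [h1]
    refine isClosed_iInter fun m => isClosed_iInter fun _ => ?_
    rw [← isOpen_compl_iff, isOpen_iff_forall_mem_open]
    intro z hz
    refine ⟨PiNat.cylinder z m, fun w hw => ?_, PiNat.isOpen_cylinder (fun _ => Bool) z m,
      PiNat.self_mem_cylinder z m⟩
    have h2 : PiNat.res w m = PiNat.res z m := by
      rw [PiNat.res_eq_res]
      exact hw
    simp only [mem_compl_iff, mem_ofPred_eq] at hz ⊢
    rwa [h2]
  · ext x
    constructor
    · intro hx
      refine ⟨hA hx, mem_iUnion.2 ?_⟩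
      obtain ⟨p, hpG, hp⟩ := hG4 (d ⟨x, hx⟩) (Or.inl ⟨_, rfl⟩)
      refine ⟨p.s.sup List.length + 1, fun m hm hmS => ?_⟩
      obtain ⟨q, hq, hmq⟩ := hmS
      obtain ⟨r, hr, hrp, hrq⟩ := hG3 p hpG q hq
      have h1 : PiNat.res x m ∈ r.s := hrq.1 hmq
      by_cases h2 : PiNat.res x m ∈ p.s
      · have h3 := Finset.le_sup (f := List.length) h2
        rw [PiNat.res_length] at h3
        omega
      · exact hrp.2.2 _ h1 h2 ⟨x, hx⟩ hp (by rw [PiNat.res_length])
    · rintro ⟨hxD, hx⟩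
      obtain ⟨N, hN⟩ := mem_iUnion.1 hx
      by_contra hxA
      obtain ⟨p, hpG, t, ht, h1, h2⟩ := hG4 (e ⟨⟨x, hxD, hxA⟩, N⟩) (Or.inr ⟨_, rfl⟩)
      exact hN t.length h1 ⟨p, hpG, by rw [h2]; exact ht⟩

end

theorem homeo_rhoG {κ : Cardinal.{0}} (hκ : ℵ₀ ≤ κ) (hc : κ ≤ 𝔠) (hMA : MASC κ) {ι : Type}
    (hι : #ι = κ) {m n : ℕ} (hm : 2 ≤ m)
    (hn : 2 ≤ n) :
    Nonempty (@Homeomorph (ι →₀ ZMod m) (ι →₀ ZMod n) (rho _) (rho _)) := by
  have hcard : κ ≤ #(ℕ → Bool) := by
    have h1 : #(ℕ → Bool) = 𝔠 := by simp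
    rw [h1]
    exact hc
  obtain ⟨D, hD⟩ := le_mk_iff_exists_set.1 hcard
  refine homeo_sums (isQSetG hκ hMA hD.le) ?_ (hι.trans hD.symm) hm hn
  rw [← Set.infinite_coe_iff, Cardinal.infinite_iff, hD]
  exact hκ

end Pool.Agent.Y582.CG
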